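import Pool.Agent.Work.MP_91aed7_am.Interface

/-!
# Block HIG: Higman's linearization
-/

set_option autoImplicit false

open Finset

namespace Pool.AM

noncomputable section

namespace HIG_

open Polynomial

/-- the conclusion, with an arbitrary finite type in place of `Fin l` -/
def Lin {R : Type} [CommRing R] {ι : Type} [Fintype ι] [DecidableEq ι] (κ : Type) [Fintype κ]
    [DecidableEq κ] (M : Matrix ι ι R[X]) : Prop :=
  ∃ (M0 M1 : Matrix (ι ⊕ κ) (ι ⊕ κ) R),
    ∃ E ∈ EL (ι ⊕ κ) R[X], ∃ F ∈ EL (ι ⊕ κ) R[X],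
      Matrix.fromBlocks M 0 0 (1 : Matrix κ κ R[X])
        = E * (M0.map C + (X : R[X]) • M1.map C) * F

variable {R : Type} [CommRing R]

/-- transport of a factorization along a bijection of the index types -/
theorem transport (h : Stmt_EL1) {α β : Type} [Fintype α] [DecidableEq α] [Fintype β]
    [DecidableEq β] (e : α ≃ β) {A : Matrix α α R[X]} {M0 M1 : Matrix α α R}
    {E F : Matrix α α R[X]} (hE : E ∈ EL α R[X]) (hF : F ∈ EL α R[X])
    (hA : A = E * (M0.map C + (X : R[X]) • M1.map C) * F) :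
    ∃ (N0 N1 : Matrix β β R), ∃ E' ∈ EL β R[X], ∃ F' ∈ EL β R[X],
      Matrix.reindex e e A = E' * (N0.map C + (X : R[X]) • N1.map C) * F' := by
  refine ⟨Matrix.reindex e e M0, Matrix.reindex e e M1, Matrix.reindex e e E,
    (h α β R[X]).1 e E hE, Matrix.reindex e e F, (h α β R[X]).1 e F hF, ?_⟩
  rw [hA]
  have h1 : ∀ P Q : Matrix α α R[X],
      Matrix.reindex e e (P * Q) = Matrix.reindex e e P * Matrix.reindex e e Q := by
    intro P Q
    rw [Matrix.reindex_apply, Matrix.reindex_apply, Matrix.reindex_apply,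
      Matrix.submatrix_mul_equiv]
  rw [h1, h1]
  rfl

theorem entry {p : R[X]} (hp : p.natDegree ≤ 1) : p = C (p.coeff 0) + X * C (p.coeff 1) := by
  have h1 := Polynomial.eq_X_add_C_of_natDegree_le_one hp
  rw [X_mul_C, add_comm]
  exact h1

theorem sub_deg {p : R[X]} {e : ℕ} (hp : p.natDegree ≤ e + 2) :
    (p - monomial (e + 2) (p.coeff (e + 2))).natDegree ≤ e + 1 := by
  rw [Polynomial.natDegree_le_iff_coeff_eq_zero]
  intro N hN
  rw [coeff_sub, coeff_monomial]
  by_cases h : e + 2 = N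
  · rw [if_pos h, h, sub_self]
  · rw [if_neg h, sub_zero]
    exact coeff_eq_zero_of_natDegree_lt (by omega)

theorem main (h : Stmt_EL1) (e : ℕ) : ∀ (ι : Type) [Fintype ι] [DecidableEq ι]
    (M : Matrix ι ι R[X]), (∀ i j, (M i j).natDegree ≤ e + 1) →
    ∃ (κ : Type) (_ : Fintype κ) (_ : DecidableEq κ), Lin κ M := by
  induction e with
  | zero =>
    intro ι _ _ M hM
    refine ⟨Fin 0, inferInstance, inferInstance, ?_⟩
    refine ⟨Matrix.fromBlocks (M.map fun p => p.coeff 0) 0 0 0,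
      Matrix.fromBlocks (M.map fun p => p.coeff 1) 0 0 0, 1, Submonoid.one_mem _, 1,
      Submonoid.one_mem _, ?_⟩
    rw [one_mul, mul_one]
    ext1 i j
    rcases i with i | i
    · rcases j with j | j
      · have h1 := entry (hM i j)
        rw [Matrix.fromBlocks_apply₁₁, Matrix.add_apply, Matrix.smul_apply, Matrix.map_apply,
          Matrix.map_apply, Matrix.fromBlocks_apply₁₁, Matrix.fromBlocks_apply₁₁,
          Matrix.map_apply, Matrix.map_apply, smul_eq_mul]
        exact h1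
      · exact j.elim0
    · exact i.elim0
  | succ e ih =>
    intro ι _ _ M hM
    obtain ⟨B, hB⟩ : ∃ B : Matrix ι ι R[X], ∀ i j, B i j = monomial (e + 1) ((M i j).coeff (e + 2)) :=
      ⟨Matrix.of fun i j => monomial (e + 1) ((M i j).coeff (e + 2)), fun _ _ => rfl⟩
    obtain ⟨N, hN⟩ : ∃ N : Matrix (ι ⊕ ι) (ι ⊕ ι) R[X],
        N = Matrix.fromBlocks (M - (X : R[X]) • B) B (-((X : R[X]) • (1 : Matrix ι ι R[X]))) 1 :=
      ⟨_, rfl⟩
    have hNd : ∀ i j, (N i j).natDegree ≤ e + 1 := by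
      intro i j
      rw [hN]
      rcases i with i | i <;> rcases j with j | j
      · rw [Matrix.fromBlocks_apply₁₁, Matrix.sub_apply, Matrix.smul_apply, hB, smul_eq_mul,
          mul_comm, monomial_mul_X]
        exact sub_deg (hM i j)
      · rw [Matrix.fromBlocks_apply₁₂, hB]
        exact natDegree_monomial_le _
      · rw [Matrix.fromBlocks_apply₂₁, Matrix.neg_apply, natDegree_neg, Matrix.smul_apply,
          smul_eq_mul, Matrix.one_apply]
        split_ifs
        · rw [mul_one]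
          exact natDegree_X_le.trans (by omega)
        · rw [mul_zero, natDegree_zero]
          omega
      · rw [Matrix.fromBlocks_apply₂₂, Matrix.one_apply]
        split_ifs
        · rw [natDegree_one]; omega
        · rw [natDegree_zero]; omega
    have hfac : Matrix.fromBlocks M 0 0 (1 : Matrix ι ι R[X]) =
        Matrix.fromBlocks 1 (-B) 0 1 * N *
          Matrix.fromBlocks 1 0 ((X : R[X]) • (1 : Matrix ι ι R[X])) 1 := by
      rw [hN, Matrix.fromBlocks_multiply, Matrix.fromBlocks_multiply]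
      have e1 : (1 * (M - (X : R[X]) • B) + -B * -((X : R[X]) • (1 : Matrix ι ι R[X]))) = M := by
        rw [Matrix.one_mul, neg_mul_neg, Matrix.mul_smul, Matrix.mul_one, sub_add_cancel]
      have e2 : (1 * B + -B * (1 : Matrix ι ι R[X])) = 0 := by
        rw [Matrix.one_mul, Matrix.mul_one, add_neg_cancel]
      rw [e1, e2]
      simp
    obtain ⟨κ, i1, i2, M0, M1, E, hE, F, hF, hEF⟩ := ih (ι ⊕ ι) N hNd
    refine ⟨ι ⊕ κ, inferInstance, inferInstance, ?_⟩
    have hU : Matrix.fromBlocks (1 : Matrix ι ι R[X]) (-B) 0 1 ∈ EL (ι ⊕ ι) R[X] :=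
      (h ι ι R[X]).2.2.2.1 (-B)
    have hL : Matrix.fromBlocks (1 : Matrix ι ι R[X]) 0 ((X : R[X]) • (1 : Matrix ι ι R[X])) 1 ∈
        EL (ι ⊕ ι) R[X] := (h ι ι R[X]).2.2.2.2.1 _
    have hU' := (h (ι ⊕ ι) κ R[X]).2.1 _ hU
    have hL' := (h (ι ⊕ ι) κ R[X]).2.1 _ hL
    have hbig : Matrix.fromBlocks (Matrix.fromBlocks M 0 0 (1 : Matrix ι ι R[X])) 0 0
          (1 : Matrix κ κ R[X]) =
        (Matrix.fromBlocks (Matrix.fromBlocks 1 (-B) 0 1) 0 0 (1 : Matrix κ κ R[X]) * E) *
          (M0.map C + (X : R[X]) • M1.map C) *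
        (F * Matrix.fromBlocks (Matrix.fromBlocks 1 0 ((X : R[X]) • (1 : Matrix ι ι R[X])) 1) 0 0
          (1 : Matrix κ κ R[X])) := by
      have e1 : ∀ P Q : Matrix (ι ⊕ ι) (ι ⊕ ι) R[X],
          Matrix.fromBlocks (P * Q) 0 0 (1 : Matrix κ κ R[X]) =
            Matrix.fromBlocks P 0 0 1 * Matrix.fromBlocks Q 0 0 1 := by
        intro P Q
        rw [Matrix.fromBlocks_multiply]
        simp
      rw [hfac, e1, e1, hEF]
      simp only [Matrix.mul_assoc]
    obtain ⟨N0, N1, E', hE', F', hF', heq⟩ := transport h (Equiv.sumAssoc ι ι κ)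
      (Submonoid.mul_mem _ hU' hE) (Submonoid.mul_mem _ hF hL') hbig
    refine ⟨N0, N1, E', hE', F', hF', ?_⟩
    rw [← heq]
    ext1 i j
    rcases i with i | i | i <;> rcases j with j | j | j <;>
      simp [Matrix.reindex_apply, Matrix.submatrix_apply, Matrix.one_apply]

end HIG_

/-- **Block HIG.** -/
theorem stmt_HIG (h : Stmt_EL1) : Stmt_HIG := by
  classical
  intro R _ ι _ _ M
  obtain ⟨D, hD⟩ : ∃ D : ℕ, ∀ i j, (M i j).natDegree ≤ D := by
    refine ⟨Finset.univ.sup fun i => Finset.univ.sup fun j => (M i j).natDegree, fun i j => ?_⟩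
    exact le_trans (Finset.le_sup (f := fun j => (M i j).natDegree) (Finset.mem_univ j))
      (Finset.le_sup (f := fun i => Finset.univ.sup fun j => (M i j).natDegree)
        (Finset.mem_univ i))
  obtain ⟨κ, i1, i2, M0, M1, E, hE, F, hF, hEF⟩ := HIG_.main h D ι M
    (fun i j => (hD i j).trans (Nat.le_succ D))
  refine ⟨Fintype.card κ, ?_⟩
  obtain ⟨N0, N1, E', hE', F', hF', heq⟩ := HIG_.transport h
    (Equiv.sumCongr (Equiv.refl ι) (Fintype.equivFin κ)) hE hF hEF
  refine ⟨N0, N1, E', hE', F', hF', ?_⟩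
  rw [← heq]
  ext1 i j
  rcases i with i | i <;> rcases j with j | j <;>
    simp [Matrix.reindex_apply, Matrix.submatrix_apply, Matrix.one_apply]

end

end Pool.AM
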