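import Pool.Agent.Work.MP_91aed7_am.Interface

/-!
# Block RA: the realizable vector fields form a group
-/

set_option autoImplicit false

open Finset

namespace Pool.AM

noncomputable section

namespace RA_

variable {k : Type} [Field k] {n : ℕ}

/-- elementary automorphisms exist -/
theorem exists_el {σ : Type} [DecidableEq σ] (i : σ) (f : MvPolynomial σ k) (hi : i ∉ f.vars) :
    ∃ τ : MvPolynomial σ k ≃ₐ[k] MvPolynomial σ k, IsEl τ ∧
      τ (MvPolynomial.X i) = MvPolynomial.X i + f ∧
      ∀ j : σ, j ≠ i → τ (MvPolynomial.X j) = MvPolynomial.X j := by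
  obtain ⟨a, ha⟩ : ∃ a : MvPolynomial σ k → (MvPolynomial σ k →ₐ[k] MvPolynomial σ k),
      ∀ g, a g = MvPolynomial.aeval (fun j => if j = i then MvPolynomial.X i + g
        else MvPolynomial.X j) := ⟨_, fun _ => rfl⟩
  have ha1 : ∀ g, a g (MvPolynomial.X i) = MvPolynomial.X i + g := by
    intro g
    rw [ha, MvPolynomial.aeval_X, if_pos rfl]
  have ha2 : ∀ g j, j ≠ i → a g (MvPolynomial.X j) = MvPolynomial.X j := by
    intro g j hj
    rw [ha, MvPolynomial.aeval_X, if_neg hj]
  have hfix : ∀ g, a g f = f := by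
    intro g
    have h1 : a g f = (AlgHom.id k (MvPolynomial σ k)) f := by
      apply MvPolynomial.hom_congr_vars (f₁ := (a g : MvPolynomial σ k →+* MvPolynomial σ k))
        (f₂ := ((AlgHom.id k (MvPolynomial σ k) : MvPolynomial σ k →ₐ[k] MvPolynomial σ k) :
          MvPolynomial σ k →+* MvPolynomial σ k))
      · ext c
        simp
      · intro j hj _
        have hji : j ≠ i := by rintro rfl; exact hi hj
        show a g (MvPolynomial.X j) = MvPolynomial.X j
        exact ha2 g j hji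
      · rfl
    exact h1
  have hcomp : ∀ g h, a g f = f → (g = f ∧ h = -f ∨ g = -f ∧ h = f) →
      (a g).comp (a h) = AlgHom.id k (MvPolynomial σ k) := by
    intro g h _ hgh
    apply MvPolynomial.algHom_ext
    intro j
    rw [AlgHom.comp_apply, AlgHom.id_apply]
    by_cases hj : j = i
    · rw [hj, ha1, map_add, ha1]
      rcases hgh with ⟨rfl, rfl⟩ | ⟨rfl, rfl⟩
      · rw [map_neg, hfix]; ring
      · rw [hfix]; ring
    · rw [ha2 h j hj, ha2 g j hj]
  refine ⟨AlgEquiv.ofAlgHom (a f) (a (-f)) (hcomp f (-f) (hfix f) (Or.inl ⟨rfl, rfl⟩))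
    (hcomp (-f) f (hfix (-f)) (Or.inr ⟨rfl, rfl⟩)), ?_, ?_, ?_⟩
  · exact ⟨i, f, hi, ha1 f, fun j hj => ha2 f j hj⟩
  · exact ha1 f
  · exact fun j hj => ha2 f j hj

end RA_

/-- **Block RA.** -/
theorem stmt_RA (hJ : Stmt_J) (hLV : Stmt_LV) : Stmt_RA := by
  classical
  intro k _ n
  have JL := hJ k n
  have LV := hLV k n
  have hlvl : ∀ {w : ℕ} {H : VF k n} {τ : PS k n ≃ₐ[k] PS k n}, (∀ v, H v ∈ J k n (w + wt v)) →
      (∀ v, τ (MvPolynomial.X v) - MvPolynomial.X v - H v ∈ J k n (w + wt v + 1)) → Lvl w τ := by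
    intro w H τ h1 h2 v
    have h3 : τ (MvPolynomial.X v) - MvPolynomial.X v =
        (τ (MvPolynomial.X v) - MvPolynomial.X v - H v) + H v := by ring
    rw [h3]
    exact Submodule.add_mem _ (JL.mono (by omega) (h2 v)) (h1 v)
  refine ⟨?_, ?_, ?_, ?_, ?_⟩
  · -- sums
    intro w H H' hw h h'
    obtain ⟨h1, τ, hτ, h2⟩ := h
    obtain ⟨h1', τ', hτ', h2'⟩ := h'
    refine ⟨fun v => Submodule.add_mem _ (h1 v) (h1' v), τ * τ', Subgroup.mul_mem _ hτ hτ', ?_⟩
    intro v
    have hL := hlvl h1 h2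
    have hL' := hlvl h1' h2'
    have h3 := (LV.pres hL (hL' v)).2
    have h4 : (τ * τ') (MvPolynomial.X v) - MvPolynomial.X v - (H + H') v =
        (τ (τ' (MvPolynomial.X v) - MvPolynomial.X v) -
          (τ' (MvPolynomial.X v) - MvPolynomial.X v)) +
        (τ (MvPolynomial.X v) - MvPolynomial.X v - H v) +
        (τ' (MvPolynomial.X v) - MvPolynomial.X v - H' v) := by
      rw [AlgEquiv.mul_apply, Pi.add_apply, map_sub]
      ring
    rw [h4]
    exact Submodule.add_mem _ (Submodule.add_mem _ (JL.mono (by omega) h3) (h2 v)) (h2' v)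
  · -- negatives
    intro w H hw h
    obtain ⟨h1, τ, hτ, h2⟩ := h
    have hL := hlvl h1 h2
    refine ⟨fun v => Submodule.neg_mem _ (h1 v), τ⁻¹, Subgroup.inv_mem _ hτ, ?_⟩
    intro v
    have hLi := LV.inv hw hL
    have h3 : τ (τ⁻¹ (MvPolynomial.X v)) = MvPolynomial.X v := τ.apply_symm_apply _
    have h4 := (LV.pres hL (hLi v)).2
    have h5 : τ⁻¹ (MvPolynomial.X v) - MvPolynomial.X v - (-H) v =
        -((τ (τ⁻¹ (MvPolynomial.X v) - MvPolynomial.X v) -
          (τ⁻¹ (MvPolynomial.X v) - MvPolynomial.X v)) +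
        (τ (MvPolynomial.X v) - MvPolynomial.X v - H v)) := by
      rw [map_sub, h3, Pi.neg_apply]
      ring
    rw [h5]
    exact Submodule.neg_mem _ (Submodule.add_mem _ (JL.mono (by omega) h4) (h2 v))
  · -- zero
    intro w
    refine ⟨fun v => Submodule.zero_mem _, 1, Subgroup.one_mem _, fun v => ?_⟩
    have h1 : (1 : PS k n ≃ₐ[k] PS k n) (MvPolynomial.X v) - MvPolynomial.X v - (0 : VF k n) v =
        0 := by
      rw [AlgEquiv.one_apply, Pi.zero_apply]
      ring
    rw [h1]
    exact Submodule.zero_mem _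
  · -- congruence
    intro w H H' h hc
    obtain ⟨h1, τ, hτ, h2⟩ := h
    refine ⟨fun v => ?_, τ, hτ, fun v => ?_⟩
    · have h3 : H' v = (H' v - H v) + H v := by ring
      rw [h3]
      exact Submodule.add_mem _ (JL.mono (by omega) (hc v)) (h1 v)
    · have h3 : τ (MvPolynomial.X v) - MvPolynomial.X v - H' v =
          (τ (MvPolynomial.X v) - MvPolynomial.X v - H v) - (H' v - H v) := by ring
      rw [h3]
      exact Submodule.sub_mem _ (h2 v) (hc v)
  · -- elementary fields
    intro w i f hi hf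
    obtain ⟨τ, h1, h2, h3⟩ := RA_.exists_el i f hi
    refine ⟨fun v => ?_, τ, Subgroup.subset_closure (Or.inl h1), fun v => ?_⟩
    · by_cases hv : v = i
      · rw [hv, Pi.single_eq_same]; exact hf
      · rw [Pi.single_eq_of_ne hv]; exact Submodule.zero_mem _
    · by_cases hv : v = i
      · rw [hv, Pi.single_eq_same, h2]
        have : (MvPolynomial.X i : PS k n) + f - MvPolynomial.X i - f = 0 := by ring
        rw [this]; exact Submodule.zero_mem _
      · rw [Pi.single_eq_of_ne hv, h3 v hv]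
        have : (MvPolynomial.X v : PS k n) - MvPolynomial.X v - 0 = 0 := by ring
        rw [this]; exact Submodule.zero_mem _

end

end Pool.AM
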