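import Pool.Agent.Work.MP_91aed7_am.Interface

/-!
# Block STEP: the induction step
-/

set_option autoImplicit false

open Finset

namespace Pool.AM

noncomputable section

namespace STEP_

variable {k : Type} [Field k] {n : ℕ}

theorem mem_low_iff {L : ℕ} (v : Vr n) : v ∈ low n L ↔ v ∈ lowF n L := by
  unfold low lowF
  rcases v with i | j
  · simp
  · simp

theorem sum_real (hRA : RALaws k n) {w : ℕ} (hw : 1 ≤ w) {ι : Type} (s : Finset ι)
    (F : ι → VF k n) (h : ∀ a ∈ s, Real w (F a)) : Real w (∑ a ∈ s, F a) := by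
  classical
  induction s using Finset.induction_on with
  | empty => rw [Finset.sum_empty]; exact hRA.zero w
  | insert a s ha ih =>
    rw [Finset.sum_insert ha]
    exact hRA.add hw (h a (Finset.mem_insert_self a s))
      (ih fun b hb => h b (Finset.mem_insert_of_mem hb))

/-- the sum of the fields `KK` -/
theorem sum_KK (H : VF k n) (s : Finset (Vr n)) (z : Vr n) (hH : ∀ v ∉ s, H v = 0) :
    ∀ u, H u - (∑ v ∈ s, KK v z (H v)) u =
      if u = z then (∑ v ∈ s, MvPolynomial.pderiv v (H v)) * MvPolynomial.X z else 0 := by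
  classical
  intro u
  have h1 : (∑ v ∈ s, KK v z (H v)) u = ∑ v ∈ s, (if u = v then H v else 0) -
      ∑ v ∈ s, (if u = z then MvPolynomial.pderiv v (H v) * MvPolynomial.X z else 0) := by
    rw [Finset.sum_apply, ← Finset.sum_sub_distrib]
    refine Finset.sum_congr rfl fun v _ => ?_
    unfold KK
    rw [Pi.sub_apply, Pi.single_apply, Pi.single_apply]
  have h2 : ∑ v ∈ s, (if u = v then H v else 0) = H u := by
    rw [Finset.sum_ite_eq s u (fun v => H v)]
    by_cases hu : u ∈ s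
    · rw [if_pos hu]
    · rw [if_neg hu, hH u hu]
  rw [h1, h2]
  by_cases hu : u = z
  · simp only [hu, if_true]
    rw [Finset.sum_mul]
    ring
  · simp only [hu, if_false, Finset.sum_const_zero]
    ring

end STEP_

/-- **Block STEP.** -/
theorem stmt_STEP (hJ : Stmt_J) (hLV : Stmt_LV) (hRA : Stmt_RA) (hRKK : Stmt_RKK)
    (hDIV : Stmt_DIV) : Stmt_STEP := by
  classical
  intro k _ n L w θ hw hFL hLvl
  have JL := hJ k n
  have LV := hLV k n
  have RA := hRA k n
  obtain ⟨H, hH⟩ : ∃ H : VF k n, ∀ v, H v = θ (MvPolynomial.X v) - MvPolynomial.X v :=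
    ⟨fun v => θ (MvPolynomial.X v) - MvPolynomial.X v, fun _ => rfl⟩
  have hHJ : ∀ v, H v ∈ J k n (w + wt v) := fun v => by rw [hH]; exact hLvl v
  have hH0 : ∀ v ∉ lowF n L, H v = 0 := by
    intro v hv
    rw [hH, hFL.2 v (fun h => hv ((STEP_.mem_low_iff v).1 h)), sub_self]
  have hzlow : (Sum.inr L : Vr n) ∉ low n L := by
    intro h
    exact lt_irrefl L (h L rfl)
  have hvars : ∀ v ∈ lowF n L, (Sum.inr L : Vr n) ∉ (H v).vars := by
    intro v hv hz
    have hvl : v ∈ low n L := (STEP_.mem_low_iff v).2 hv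
    have h1 : H v ∈ MvPolynomial.supported k (low n L) := by
      rw [hH]
      refine Subalgebra.sub_mem _ (hFL.1 v hvl).1 ?_
      exact (MvPolynomial.X_mem_supported).2 hvl
    exact hzlow (MvPolynomial.mem_supported.1 h1 (Finset.mem_coe.2 hz))
  have hne : ∀ v ∈ lowF n L, (Sum.inr L : Vr n) ≠ v := by
    rintro v hv rfl
    exact hzlow ((STEP_.mem_low_iff _).2 hv)
  have hreal : Real w (∑ v ∈ lowF n L, KK v (Sum.inr L) (H v)) :=
    STEP_.sum_real RA hw _ _ fun v hv =>
      hRKK k n w v L (H v) hw (hne v hv) (hvars v hv) (hHJ v)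
  have hdiv := hDIV k n L w θ hw hFL hLvl
  have hrealH : Real w H := by
    refine RA.congr hreal fun u => ?_
    rw [STEP_.sum_KK H (lowF n L) (Sum.inr L) hH0 u]
    by_cases hu : u = Sum.inr L
    · rw [if_pos hu, hu]
      have h1 : ∑ v ∈ lowF n L, MvPolynomial.pderiv v (H v) ∈ J k n (w + 1) := by
        simp only [hH]
        exact hdiv
      have h2 := JL.mul h1 (JL.X_mem (Sum.inr L : Vr n))
      have h3 : w + wt (Sum.inr L : Vr n) + 1 = w + 1 + wt (Sum.inr L : Vr n) := by omega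
      rw [h3]
      exact h2
    · rw [if_neg hu]
      exact Submodule.zero_mem _
  obtain ⟨-, τ, hτ, hτH⟩ := hrealH
  have hdiff : ∀ v, θ (MvPolynomial.X v) - τ (MvPolynomial.X v) ∈ J k n (w + 1 + wt v) := by
    intro v
    have h1 := hτH v
    rw [hH] at h1
    have h2 : θ (MvPolynomial.X v) - τ (MvPolynomial.X v) =
        -(τ (MvPolynomial.X v) - MvPolynomial.X v -
          (θ (MvPolynomial.X v) - MvPolynomial.X v)) := by ring
    rw [h2]
    have h3 : w + 1 + wt v = w + wt v + 1 := by omega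
    rw [h3]
    exact Submodule.neg_mem _ h1
  have hτL : Lvl w τ := by
    intro v
    have h1 := JL.mono (show w + wt v ≤ w + 1 + wt v by omega) (hdiff v)
    have h2 : τ (MvPolynomial.X v) - MvPolynomial.X v = (θ (MvPolynomial.X v) - MvPolynomial.X v) -
        (θ (MvPolynomial.X v) - τ (MvPolynomial.X v)) := by ring
    rw [h2]
    exact Submodule.sub_mem _ (hLvl v) h1
  refine ⟨τ, hτ, fun v => ?_⟩
  have h1 : τ⁻¹ (MvPolynomial.X v) ∈ J k n (wt v) := LV.presi hw hτL (JL.X_mem v)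
  have h2 := JL.diff (θ : PS k n →ₐ[k] PS k n) (τ : PS k n →ₐ[k] PS k n) (w + 1)
    (fun u => (LV.pres hLvl (JL.X_mem u)).1) (fun u => (LV.pres hτL (JL.X_mem u)).1)
    (fun u => hdiff u) h1
  have h3 : τ (τ⁻¹ (MvPolynomial.X v)) = MvPolynomial.X v := τ.apply_symm_apply _
  have h4 : (θ * τ⁻¹) (MvPolynomial.X v) - MvPolynomial.X v =
      (θ : PS k n →ₐ[k] PS k n) (τ⁻¹ (MvPolynomial.X v)) -
        (τ : PS k n →ₐ[k] PS k n) (τ⁻¹ (MvPolynomial.X v)) := by
    rw [AlgEquiv.mul_apply]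
    have : (τ : PS k n →ₐ[k] PS k n) (τ⁻¹ (MvPolynomial.X v)) = MvPolynomial.X v := h3
    rw [this]
    rfl
  rw [h4]
  have h5 : w + 1 + wt v = wt v + (w + 1) := by omega
  rw [h5]
  exact h2

end

end Pool.AM
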